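import Mathlib

/-!
# A dense sequence in `ℓ₂`
-/

namespace PCX98

open Filter Topology

/-- The real Hilbert space `ℓ₂`. -/
abbrev L2 : Type := lp (fun _ : ℕ => ℝ) 2

/-- the finitely supported rational vectors of `ℓ₂` -/
noncomputable def yt (p : Σ N : ℕ, (Fin N → ℚ)) : L2 :=
  ∑ i : Fin p.1, lp.single (E := fun _ : ℕ => ℝ) 2 (i : ℕ) ((p.2 i : ℚ) : ℝ)

theorem norm_single_two (i : ℕ) (c : ℝ) :
    ‖lp.single (E := fun _ : ℕ => ℝ) 2 i c‖ = |c| := by
  rw [lp.norm_single (by norm_num)]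
  rfl

theorem exists_yt (x : L2) (ε : ℝ) (hε : 0 < ε) : ∃ p, ‖x - yt p‖ ≤ ε := by
  have h1 : HasSum (fun i => lp.single (E := fun _ : ℕ => ℝ) 2 i (x i)) x :=
    lp.hasSum_single (p := 2) (E := fun _ : ℕ => ℝ) (by norm_num) x
  have h2 := h1.tendsto_sum_nat
  rw [Metric.tendsto_atTop] at h2
  obtain ⟨N, hN⟩ := h2 (ε / 2) (by positivity)
  have hN' := hN N le_rfl
  rw [dist_eq_norm] at hN'
  have h3 : ∀ i : ℕ, ∃ q : ℚ, |x i - q| < ε / (2 * (N + 1)) := by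
    intro i
    exact exists_rat_near (x i) (by positivity)
  choose q hq using h3
  refine ⟨⟨N, fun i => q i⟩, ?_⟩
  have h4 : yt ⟨N, fun i => q i⟩
      = ∑ i ∈ Finset.range N, lp.single (E := fun _ : ℕ => ℝ) 2 i ((q i : ℚ) : ℝ) := by
    unfold yt
    exact (Finset.sum_range
      (fun i => lp.single (E := fun _ : ℕ => ℝ) 2 i ((q i : ℚ) : ℝ))).symm
  rw [h4]
  have h5 : x - ∑ i ∈ Finset.range N, lp.single (E := fun _ : ℕ => ℝ) 2 i ((q i : ℚ) : ℝ)
      = -(∑ i ∈ Finset.range N, lp.single (E := fun _ : ℕ => ℝ) 2 i (x i) - x)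
        + ∑ i ∈ Finset.range N, (lp.single (E := fun _ : ℕ => ℝ) 2 i (x i - q i)) := by
    have h6 : ∀ i : ℕ, lp.single (E := fun _ : ℕ => ℝ) 2 i (x i - q i)
        = lp.single (E := fun _ : ℕ => ℝ) 2 i (x i)
          - lp.single (E := fun _ : ℕ => ℝ) 2 i ((q i : ℚ) : ℝ) := by
      intro i
      exact lp.single_sub 2 i _ _
    simp only [h6, Finset.sum_sub_distrib]
    abel
  rw [h5]
  refine (norm_add_le _ _).trans ?_
  rw [norm_neg]
  have h6 : ‖∑ i ∈ Finset.range N, (lp.single (E := fun _ : ℕ => ℝ) 2 i (x i - q i))‖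
      ≤ ε / 2 := by
    refine (norm_sum_le _ _).trans ?_
    calc ∑ i ∈ Finset.range N, ‖lp.single (E := fun _ : ℕ => ℝ) 2 i (x i - q i)‖
        ≤ ∑ i ∈ Finset.range N, ε / (2 * (N + 1)) := by
          refine Finset.sum_le_sum ?_
          intro i _
          rw [norm_single_two]
          exact (hq i).le
      _ = N * (ε / (2 * (N + 1))) := by simp
      _ ≤ ε / 2 := by
          rw [mul_div_assoc', div_le_div_iff₀ (by positivity) (by norm_num)]
          nlinarith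
  linarith

theorem exists_dense_two : ∃ t : ℕ → L2, ∀ v : L2, ∀ ε : ℝ, 0 < ε → ∃ n, ‖v - t n‖ ≤ ε := by
  obtain ⟨f, hf⟩ := exists_surjective_nat (Σ N : ℕ, (Fin N → ℚ))
  refine ⟨fun n => yt (f n), ?_⟩
  intro v ε hε
  obtain ⟨p, hp⟩ := exists_yt v ε hε
  obtain ⟨n, rfl⟩ := hf p
  exact ⟨n, hp⟩

end PCX98
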