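import Mathlib

/-!
# The plane geometry behind the bound `√((5 - √5) / 2)`
-/

namespace PCX98

/-- `ρ = √((5 - √5) / 2) = 2 sin 36° = 1.1755...` -/
noncomputable def rr : ℝ := √((5 - √5) / 2)

/-- `c = 2 ρ / √5 = 1.0514...` -/
noncomputable def cc : ℝ := 2 * rr / √5

theorem sqrt5_facts : √5 ^ 2 = 5 ∧ 2.236 < √5 ∧ √5 < 2.237 := by
  have h : √5 ^ 2 = 5 := Real.sq_sqrt (by norm_num)
  refine ⟨h, ?_, ?_⟩
  · exact Real.lt_sqrt_of_sq_lt (by norm_num)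
  · exact (Real.sqrt_lt' (by norm_num)).2 (by norm_num)

theorem rr_sq : rr ^ 2 = (5 - √5) / 2 := by
  obtain ⟨_, _, h⟩ := sqrt5_facts
  exact Real.sq_sqrt (by linarith)

theorem rr_pos : 0 < rr := by
  obtain ⟨_, _, h⟩ := sqrt5_facts
  exact Real.sqrt_pos.2 (by linarith)

theorem cc_pos : 0 < cc := by
  have := rr_pos
  have : 0 < √5 := by positivity
  unfold cc
  positivity

theorem cc_sq : 5 * cc ^ 2 = 4 * rr ^ 2 := by
  obtain ⟨h, _, _⟩ := sqrt5_facts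
  have h5 : 0 < √5 := by positivity
  unfold cc
  rw [div_pow, h]
  ring

theorem cc_mul : cc * √5 = 2 * rr := by
  have h5 : 0 < √5 := by positivity
  unfold cc
  field_simp

/-- `ρ² (1 + 1/√5) = 2` -/
theorem key_eq : 2 * rr ^ 2 + cc * rr = 4 := by
  obtain ⟨h, h1, h2⟩ := sqrt5_facts
  have h5 : 0 < √5 := by positivity
  have h3 : cc * rr * √5 = 2 * rr ^ 2 := by
    have := cc_mul
    calc cc * rr * √5 = (cc * √5) * rr := by ring
      _ = 2 * rr ^ 2 := by rw [this]; ring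
  have h4 : (2 * rr ^ 2 + cc * rr) * √5 = 4 * √5 := by
    rw [add_mul, h3, rr_sq]
    nlinarith
  exact mul_right_cancel₀ h5.ne' h4

theorem one_le_cc : 1 ≤ cc := by
  obtain ⟨h, h1, h2⟩ := sqrt5_facts
  have h3 := cc_sq
  rw [rr_sq] at h3
  have := cc_pos
  nlinarith

theorem cc_le_rr : cc ≤ rr := by
  have h3 := cc_sq
  have := cc_pos
  have := rr_pos
  nlinarith

theorem rr_lt_two : rr < 2 := by
  have := key_eq
  have := cc_pos
  have := rr_pos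
  nlinarith

/-- The first try `(ρ, 0)`: a blocker `(-p, s)` outside the disc of radius `ρ` has `2 p < c`. -/
theorem first_try {p s : ℝ} (hout : rr ^ 2 < p ^ 2 + s ^ 2)
    (hb : (p + rr) ^ 2 + s ^ 2 < 4) : 2 * p < cc := by
  have h1 := key_eq
  have h2 := rr_pos
  have h3 : 2 * p * rr < cc * rr := by nlinarith
  exact lt_of_mul_lt_mul_right h3 h2.le

/-- The second try. Given `0 ≤ p₁`, `2 p₁ < c` there are `a, κ` on the circle of radius `ρ` with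
`a ≥ c` such that neither the first blocker (at `(-p₁, s₁)`, seen from the opposite side) nor any
other point `(-p, s)` with `p + p₁ ≥ c` outside the disc blocks `(a, κ)`. -/
theorem second_try {p₁ : ℝ} (hp₁ : 0 ≤ p₁) (h2p : 2 * p₁ < cc) :
    ∃ a κ : ℝ, cc ≤ a ∧ 0 ≤ κ ∧ a ^ 2 + κ ^ 2 = rr ^ 2 ∧
      (∀ s₁ : ℝ, 0 ≤ s₁ → rr ^ 2 ≤ p₁ ^ 2 + s₁ ^ 2 → 4 ≤ (p₁ + a) ^ 2 + (s₁ + κ) ^ 2) ∧
      (∀ p s : ℝ, 0 ≤ p → 0 ≤ s → cc ≤ p + p₁ → rr ^ 2 ≤ p ^ 2 + s ^ 2 →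
        4 ≤ (p + a) ^ 2 + (s - κ) ^ 2) := by
  obtain ⟨h5, h51, h52⟩ := sqrt5_facts
  have hr := rr_pos
  have hc := cc_pos
  have hc1 := one_le_cc
  have hkey := key_eq
  have hcsq := cc_sq
  have h5p : 0 < √5 := by positivity
  -- `s' = √(ρ² - p₁²)`
  have hp1r : p₁ ^ 2 < rr ^ 2 := by nlinarith [cc_le_rr]
  set s' := √(rr ^ 2 - p₁ ^ 2) with hs'
  have hs'0 : 0 < s' := Real.sqrt_pos.2 (by linarith)
  have hs'sq : s' ^ 2 = rr ^ 2 - p₁ ^ 2 := Real.sq_sqrt (by linarith)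
  -- `S = 1/√5`, `C = 2/√5`
  set S := 1 / √5 with hS
  have hS0 : 0 < S := by positivity
  have hSsq : 5 * S ^ 2 = 1 := by
    rw [hS, div_pow, h5]; norm_num
  have hcS : cc = 2 * S * rr := by
    unfold cc
    rw [hS]
    ring
  set a := 2 * S * s' + S * p₁ with ha
  set κ := S * s' - 2 * S * p₁ with hκ
  have hsum : a ^ 2 + κ ^ 2 = rr ^ 2 := by
    have : a ^ 2 + κ ^ 2 = 5 * S ^ 2 * (s' ^ 2 + p₁ ^ 2) := by rw [ha, hκ]; ring
    rw [this, hSsq, hs'sq]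
    ring
  -- `κ ≥ 0` : `2 p₁ ≤ s'`
  have h2ps : 2 * p₁ ≤ s' := by
    have h1 : (2 * p₁) ^ 2 ≤ s' ^ 2 := by
      rw [hs'sq]
      have : (2 * p₁) ^ 2 ≤ cc ^ 2 := pow_le_pow_left₀ (by linarith) h2p.le 2
      nlinarith
    exact (abs_le_of_sq_le_sq' h1 hs'0.le).2
  have hκ0 : 0 ≤ κ := by
    rw [hκ]
    have : S * (2 * p₁) ≤ S * s' := mul_le_mul_of_nonneg_left h2ps hS0.le
    linarith
  have ha0 : 0 ≤ a := by rw [ha]; positivity
  -- `a ≥ c`
  have hac : cc ≤ a := by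
    have hκ1 : κ ≤ S * rr := by
      have h1 : s' ≤ rr := by
        have : s' ^ 2 ≤ rr ^ 2 := by nlinarith
        exact (abs_le_of_sq_le_sq' this hr.le).2
      have h2 : S * s' ≤ S * rr := mul_le_mul_of_nonneg_left h1 hS0.le
      have h3 : 0 ≤ 2 * S * p₁ := by positivity
      rw [hκ]
      linarith
    have hκ2 : κ ^ 2 ≤ (S * rr) ^ 2 := pow_le_pow_left₀ hκ0 hκ1 2
    have h1 : cc ^ 2 ≤ a ^ 2 := by
      have h2 : (S * rr) ^ 2 * 5 = rr ^ 2 := by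
        have : (S * rr) ^ 2 * 5 = 5 * S ^ 2 * rr ^ 2 := by ring
        rw [this, hSsq, one_mul]
      nlinarith
    exact (abs_le_of_sq_le_sq' h1 ha0).2
  refine ⟨a, κ, hac, hκ0, hsum, ?_, ?_⟩
  · intro s₁ hs₁ hout
    have h1 : s' ≤ s₁ := by
      have : s' ^ 2 ≤ s₁ ^ 2 := by rw [hs'sq]; linarith
      exact (abs_le_of_sq_le_sq' this hs₁).2
    have h2 : s' * κ ≤ s₁ * κ := mul_le_mul_of_nonneg_right h1 hκ0
    have h3 : p₁ * a + s' * κ = S * rr ^ 2 := by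
      have : p₁ * a + s' * κ = S * (s' ^ 2 + p₁ ^ 2) := by rw [ha, hκ]; ring
      rw [this, hs'sq]
      ring
    have h4 : cc * rr = 2 * (S * rr ^ 2) := by rw [hcS]; ring
    nlinarith
  · intro p s hp hs hpp hout
    by_cases hpa : a ≤ p
    · nlinarith [sq_nonneg (s - κ)]
    push Not at hpa
    have hp2 : p ^ 2 < a ^ 2 := pow_lt_pow_left₀ hpa hp (by norm_num)
    set s'' := √(rr ^ 2 - p ^ 2) with hs''
    have hs''0 : 0 ≤ s'' := Real.sqrt_nonneg _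
    have hs''sq : s'' ^ 2 = rr ^ 2 - p ^ 2 := Real.sq_sqrt (by nlinarith [sq_nonneg κ])
    have hκs : κ ≤ s'' := by
      have : κ ^ 2 ≤ s'' ^ 2 := by rw [hs''sq]; linarith
      exact (abs_le_of_sq_le_sq' this hs''0).2
    have hss : s'' ≤ s := by
      have : s'' ^ 2 ≤ s ^ 2 := by rw [hs''sq]; linarith
      exact (abs_le_of_sq_le_sq' this hs).2
    have h1 : (s'' - κ) ^ 2 ≤ (s - κ) ^ 2 := pow_le_pow_left₀ (by linarith) (by linarith) 2
    -- the main inequality `p a - s'' κ ≥ S ρ²`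
    set X := p * s' + s'' * p₁ with hX
    set W := rr ^ 2 + s' * s'' - p * p₁ with hW
    have hid : X * (s' + s'') = W * (p + p₁) := by
      have h2 : X * (s' + s'') - W * (p + p₁)
          = p * (s' ^ 2 + p₁ ^ 2 - rr ^ 2) + p₁ * (s'' ^ 2 + p ^ 2 - rr ^ 2) := by
        rw [hX, hW]; ring
      have h3 : s' ^ 2 + p₁ ^ 2 - rr ^ 2 = 0 := by rw [hs'sq]; ring
      have h4 : s'' ^ 2 + p ^ 2 - rr ^ 2 = 0 := by rw [hs''sq]; ring
      rw [h3, h4] at h2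
      linarith
    have hW0 : 0 ≤ W := by
      have h2 : p * p₁ ≤ rr ^ 2 := by nlinarith [sq_nonneg (p - p₁), sq_nonneg κ]
      have h3 : 0 ≤ s' * s'' := by positivity
      rw [hW]
      linarith
    have hn : s' + s'' ≤ 2 * (p + p₁) := by
      have h2 : (s' + s'') ^ 2 ≤ (2 * (p + p₁)) ^ 2 := by
        have h3 : (s' + s'') ^ 2 + (p + p₁) ^ 2 ≤ 4 * rr ^ 2 := by
          nlinarith [sq_nonneg (s' - s''), sq_nonneg (p - p₁)]
        have h4 : cc ^ 2 ≤ (p + p₁) ^ 2 := pow_le_pow_left₀ hc.le hpp 2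
        nlinarith
      exact (abs_le_of_sq_le_sq' h2 (by linarith)).2
    have hXW : W ≤ 2 * X := by
      have hnpos : 0 < s' + s'' := by linarith
      have h2 : W * (s' + s'') ≤ 2 * X * (s' + s'') := by
        calc W * (s' + s'') ≤ W * (2 * (p + p₁)) := mul_le_mul_of_nonneg_left hn hW0
          _ = 2 * (W * (p + p₁)) := by ring
          _ = 2 * X * (s' + s'') := by rw [← hid]; ring
      exact le_of_mul_le_mul_right h2 hnpos
    have hmain : S * rr ^ 2 ≤ p * a - s'' * κ := by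
      have h2 : p * a - s'' * κ - S * rr ^ 2 = S * (2 * X - W) := by
        rw [ha, hκ, hX, hW]; ring
      have h3 : 0 ≤ S * (2 * X - W) := mul_nonneg hS0.le (by linarith)
      linarith
    have h4 : cc * rr = 2 * (S * rr ^ 2) := by rw [hcS]; ring
    have h5 : (p + a) ^ 2 + (s'' - κ) ^ 2 = (s'' ^ 2 + p ^ 2) + (a ^ 2 + κ ^ 2)
        + 2 * (p * a - s'' * κ) := by ring
    have h6 : s'' ^ 2 + p ^ 2 = rr ^ 2 := by rw [hs''sq]; ring
    rw [h6, hsum] at h5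
    linarith

end PCX98
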