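import Pool.Agent.PackCover.DenseSeq
import Pool.Agent.PCX98.Plane

/-!
# The upper bound `γ*(ℓ₁ ⊕₂ Y) ≤ √((5 - √5) / 2)` for separable normed spaces `Y`
-/

namespace PCX98

open PackCover Filter Topology

variable {Y : Type*} [NormedAddCommGroup Y]

/-- admissible subgroups of `ℓ₁ × Y` -/
structure Adm (G : AddSubgroup (L1 × Y)) : Prop where
  low : ∀ g ∈ G, g ≠ 0 → cc ≤ ‖g.1‖
  sep : ∀ g ∈ G, g ≠ 0 → 4 ≤ ‖g.1‖ ^ 2 + ‖g.2‖ ^ 2
  fin : ∃ N, ∀ n, N ≤ n → ∀ g ∈ G, (g.1 : L1) n = 0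

/-- The choice of the new generator `(y + a e_N, t + b)`. -/
theorem choose_gen [NormedSpace ℝ Y] (G : AddSubgroup (L1 × Y)) (hG : Adm G) (y : L1) (t : Y)
    (hout : ∀ g ∈ G, rr ^ 2 < ‖y - g.1‖ ^ 2 + ‖t - g.2‖ ^ 2) :
    ∃ (a : ℝ) (b : Y), cc ≤ a ∧ a ^ 2 + ‖b‖ ^ 2 = rr ^ 2 ∧
      ∀ g ∈ G, 4 ≤ (‖y - g.1‖ + a) ^ 2 + ‖t + b - g.2‖ ^ 2 := by
  by_cases h0 : ∀ g ∈ G, 4 ≤ (‖y - g.1‖ + rr) ^ 2 + ‖t - g.2‖ ^ 2
  · refine ⟨rr, 0, cc_le_rr, by simp, ?_⟩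
    intro g hg
    rw [add_zero]
    exact h0 g hg
  push Not at h0
  obtain ⟨g₁, hg₁, hb₁⟩ := h0
  set p₁ := ‖y - g₁.1‖ with hp₁
  have hp₁0 : 0 ≤ p₁ := norm_nonneg _
  have h2p := first_try (hout g₁ hg₁) hb₁
  obtain ⟨a, κ, hac, hκ, hsum, hA, hB⟩ := second_try hp₁0 h2p
  set w := g₁.2 - t with hw
  have hw0 : 0 < ‖w‖ := by
    have h1 := hout g₁ hg₁
    have h2 : ‖t - g₁.2‖ = ‖w‖ := by rw [hw, norm_sub_rev]
    rw [h2] at h1
    have h3 : p₁ ^ 2 < rr ^ 2 := by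
      have := cc_le_rr
      have := cc_pos
      nlinarith
    have h4 : 0 < ‖w‖ ^ 2 := by linarith
    rcases (norm_nonneg w).lt_or_eq with h5 | h5
    · exact h5
    · rw [← h5] at h4
      norm_num at h4
  set b : Y := (-(κ / ‖w‖)) • w with hb
  have hq : 0 ≤ κ / ‖w‖ := div_nonneg hκ hw0.le
  have hbn : ‖b‖ = κ := by
    rw [hb, norm_smul, norm_neg, Real.norm_eq_abs, abs_of_nonneg hq,
      div_mul_cancel₀ κ hw0.ne']
  refine ⟨a, b, hac, by rw [hbn]; exact hsum, ?_⟩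
  intro g hg
  by_cases hgg : g = g₁
  · subst hgg
    have h1 : t + b - g.2 = (-(1 + κ / ‖w‖)) • w := by
      have h2 : g.2 = w + t := by rw [hw]; abel
      rw [h2, hb, neg_smul, neg_smul, add_smul, one_smul]
      abel
    have h2 : ‖t + b - g.2‖ = ‖w‖ + κ := by
      rw [h1, norm_smul, norm_neg, Real.norm_eq_abs, abs_of_nonneg (by linarith), add_mul,
        one_mul, div_mul_cancel₀ κ hw0.ne']
    rw [h2]
    refine hA ‖w‖ (norm_nonneg _) ?_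
    have h3 := hout g hg
    have h4 : ‖t - g.2‖ = ‖w‖ := by rw [hw, norm_sub_rev]
    rw [h4] at h3
    exact h3.le
  · have h1 : cc ≤ ‖y - g.1‖ + p₁ := by
      have h2 : g - g₁ ≠ 0 := sub_ne_zero.2 hgg
      have h3 := hG.low (g - g₁) (G.sub_mem hg hg₁) h2
      have h4 : (g - g₁).1 = -(y - g.1) + (y - g₁.1) := by
        rw [Prod.fst_sub]; abel
      rw [h4] at h3
      refine h3.trans ((norm_add_le _ _).trans ?_)
      rw [norm_neg]
    have h5 := hB ‖y - g.1‖ ‖t - g.2‖ (norm_nonneg _) (norm_nonneg _) h1 (hout g hg).le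
    have h6 : (‖t - g.2‖ - κ) ^ 2 ≤ ‖t + b - g.2‖ ^ 2 := by
      rw [← hbn]
      have h7 : t + b - g.2 = (t - g.2) - (-b) := by abel
      rw [h7, ← norm_neg b]
      have h8 := abs_norm_sub_norm_le (t - g.2) (-b)
      have h9 : (‖t - g.2‖ - ‖-b‖) ^ 2 = |‖t - g.2‖ - ‖-b‖| ^ 2 := (sq_abs _).symm
      rw [h9]
      exact pow_le_pow_left₀ (abs_nonneg _) h8 2
    linarith

theorem step [NormedSpace ℝ Y] (G : AddSubgroup (L1 × Y)) (hG : Adm G) (y : L1)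
    (hy : ∃ N, ∀ m, N ≤ m → (y : L1) m = 0) (t : Y) :
    ∃ G', G ≤ G' ∧ Adm G' ∧ ∃ g ∈ G', ‖y - g.1‖ ^ 2 + ‖t - g.2‖ ^ 2 ≤ rr ^ 2 := by
  by_cases hcov : ∃ g ∈ G, ‖y - g.1‖ ^ 2 + ‖t - g.2‖ ^ 2 ≤ rr ^ 2
  · exact ⟨G, le_rfl, hG, hcov⟩
  push Not at hcov
  obtain ⟨a, b, hac, hab, hsep⟩ := choose_gen G hG y t hcov
  have ha1 : 1 ≤ a := one_le_cc.trans hac
  obtain ⟨N₁, hN₁⟩ := hG.fin
  obtain ⟨N₂, hN₂⟩ := hy
  set N := max N₁ N₂ with hN
  have hGN : ∀ g ∈ G, (g.1 : L1) N = 0 := hN₁ N (le_max_left _ _)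
  have hyN : (y : L1) N = 0 := hN₂ N (le_max_right _ _)
  set z : L1 × Y := (y + ev N a, t + b) with hz
  -- norms of the first components
  have hfst : ∀ g ∈ G, ∀ m : ℤ, ‖(g + m • z).1‖ = ‖g.1 + m • y‖ + |(m : ℝ)| * a := by
    intro g hg m
    have h1 : (g + m • z).1 = (g.1 + m • y) + ev N (m * a) := by
      rw [Prod.fst_add, Prod.smul_fst, hz]
      have h2 : m • (y + ev N a) = m • y + ev N (m * a) := by
        rw [smul_add]
        congr 1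
        unfold ev
        have := map_zsmul (lp.singleAddMonoidHom (E := fun _ : ℕ => ℝ) 1 N) m a
        simp only [zsmul_eq_mul] at this
        exact this.symm
      rw [h2, add_assoc]
    have h2 : (g.1 + m • y : L1) N = 0 := by
      have h3 : (g.1 + m • y : L1) N = (g.1 : L1) N + m • ((y : L1) N) := rfl
      rw [h3, hGN g hg, hyN]
      simp
    rw [h1, norm_add_ev_eq _ _ _ h2, abs_mul, abs_of_nonneg (by linarith : (0 : ℝ) ≤ a)]
  have hsnd : ∀ g : L1 × Y, ∀ m : ℤ, (g + m • z).2 = g.2 + m • (t + b) := by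
    intro g m
    rw [Prod.snd_add, Prod.smul_snd, hz]
  -- the three kinds of elements of the new group
  have htri : ∀ g ∈ G, ∀ m : ℤ, g + m • z ≠ 0 →
      cc ≤ ‖(g + m • z).1‖ ∧ 4 ≤ ‖(g + m • z).1‖ ^ 2 + ‖(g + m • z).2‖ ^ 2 := by
    intro g hg m hne
    by_cases hm0 : m = 0
    · subst hm0
      have h5 : g ≠ 0 := by
        rintro rfl
        exact hne (by simp)
      have h6 : g + (0 : ℤ) • z = g := by simp
      rw [h6]
      exact ⟨hG.low g hg h5, hG.sep g hg h5⟩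
    have hmabs : (1 : ℝ) ≤ |(m : ℝ)| := by
      have h6 : 1 ≤ |m| := by
        have : 0 < |m| := abs_pos.2 hm0
        omega
      exact_mod_cast h6
    have hlow : cc ≤ ‖(g + m • z).1‖ := by
      rw [hfst g hg m]
      have h6 : a ≤ |(m : ℝ)| * a := by nlinarith
      linarith [norm_nonneg (g.1 + m • y)]
    refine ⟨hlow, ?_⟩
    by_cases hm1 : |m| = 1
    · rcases (abs_eq (by norm_num : (0 : ℤ) ≤ 1)).1 hm1 with hm | hm
      · subst hm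
        have h5 := hsep (-g) (G.neg_mem hg)
        have h6 : y - (-g).1 = g.1 + (1 : ℤ) • y := by
          rw [Prod.fst_neg, one_smul]; abel
        have h7 : t + b - (-g).2 = g.2 + (1 : ℤ) • (t + b) := by
          rw [Prod.snd_neg, one_smul]; abel
        rw [h6, h7] at h5
        rw [hfst g hg, hsnd]
        simpa using h5
      · subst hm
        have h5 := hsep g hg
        have h6 : g.1 + (-1 : ℤ) • y = -(y - g.1) := by
          rw [neg_smul, one_smul]; abel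
        have h7 : g.2 + (-1 : ℤ) • (t + b) = -(t + b - g.2) := by
          rw [neg_smul, one_smul]; abel
        rw [hfst g hg, hsnd, h6, h7, norm_neg, norm_neg]
        simpa using h5
    · have h5 : (2 : ℝ) ≤ |(m : ℝ)| := by
        have h6 : 2 ≤ |m| := by
          have : 0 < |m| := abs_pos.2 hm0
          omega
        exact_mod_cast h6
      have h6 : 2 ≤ ‖(g + m • z).1‖ := by
        rw [hfst g hg m]
        nlinarith [norm_nonneg (g.1 + m • y)]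
      nlinarith [sq_nonneg ‖(g + m • z).2‖]
  refine ⟨G ⊔ AddSubgroup.zmultiples z, le_sup_left, ⟨?_, ?_, ?_⟩, z, ?_, ?_⟩
  · intro w hw hw0
    obtain ⟨g, hg, u, hu, rfl⟩ := AddSubgroup.mem_sup.1 hw
    obtain ⟨m, rfl⟩ := AddSubgroup.mem_zmultiples_iff.1 hu
    exact (htri g hg m hw0).1
  · intro w hw hw0
    obtain ⟨g, hg, u, hu, rfl⟩ := AddSubgroup.mem_sup.1 hw
    obtain ⟨m, rfl⟩ := AddSubgroup.mem_zmultiples_iff.1 hu
    exact (htri g hg m hw0).2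
  · refine ⟨N + 1, ?_⟩
    intro n hn w hw
    obtain ⟨g, hg, u, hu, rfl⟩ := AddSubgroup.mem_sup.1 hw
    obtain ⟨m, rfl⟩ := AddSubgroup.mem_zmultiples_iff.1 hu
    have h1 : ((g + m • z).1 : L1) n = (g.1 : L1) n + m • ((y : L1) n + (ev N a : L1) n) := rfl
    rw [h1, hN₁ n (by omega) g hg, hN₂ n (by omega), ev_ne _ _ _ (by omega)]
    simp
  · exact (le_sup_right : AddSubgroup.zmultiples z ≤ _) (AddSubgroup.mem_zmultiples z)
  · have h1 : ‖y - z.1‖ = a := by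
      have : y - z.1 = -(ev N a) := by rw [hz]; simp only; abel
      rw [this, norm_neg, norm_ev, abs_of_nonneg (by linarith)]
    have h2 : ‖t - z.2‖ = ‖b‖ := by
      have : t - z.2 = -b := by rw [hz]; simp only; abel
      rw [this, norm_neg]
    rw [h1, h2, hab]

theorem adm_start : Adm (⊥ : AddSubgroup (L1 × Y)) := by
  refine ⟨?_, ?_, ⟨0, ?_⟩⟩
  · intro g hg hg0
    exact absurd (AddSubgroup.mem_bot.1 hg) hg0
  · intro g hg hg0
    exact absurd (AddSubgroup.mem_bot.1 hg) hg0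
  · intro n _ g hg
    rw [AddSubgroup.mem_bot.1 hg]
    rfl

/-- the union of a chain of admissible subgroups -/
theorem exists_limit [NormedSpace ℝ Y] (hY : ∃ t : ℕ → Y, ∀ v : Y, ∀ ε : ℝ, 0 < ε → ∃ n, ‖v - t n‖ ≤ ε) :
    ∃ D : AddSubgroup (L1 × Y),
    (∀ g ∈ D, g ≠ 0 → 4 ≤ ‖g.1‖ ^ 2 + ‖g.2‖ ^ 2) ∧
    ∀ (x : L1) (v : Y) (ε : ℝ), 0 < ε → ∃ (y : L1) (t : Y), ‖x - y‖ ≤ ε ∧ ‖v - t‖ ≤ ε ∧
      ∃ g ∈ D, ‖y - g.1‖ ^ 2 + ‖t - g.2‖ ^ 2 ≤ rr ^ 2 := by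
  obtain ⟨y, hy1, hy2⟩ := exists_dense_seq
  obtain ⟨t, ht⟩ := hY
  have hstep : ∀ (n : ℕ) (G : {G : AddSubgroup (L1 × Y) // Adm G}),
      ∃ G' : {G : AddSubgroup (L1 × Y) // Adm G}, G.1 ≤ G'.1 ∧
        ∃ g ∈ G'.1, ‖y n.unpair.1 - g.1‖ ^ 2 + ‖t n.unpair.2 - g.2‖ ^ 2 ≤ rr ^ 2 := by
    intro n G
    obtain ⟨G', h1, h2, h3⟩ := step G.1 G.2 (y n.unpair.1) (hy1 _) (t n.unpair.2)
    exact ⟨⟨G', h2⟩, h1, h3⟩
  choose f hf using hstep
  set s : ℕ → {G : AddSubgroup (L1 × Y) // Adm G} := fun n =>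
    Nat.rec ⟨_, adm_start⟩ (fun n G => f n G) n with hs
  have hs1 : ∀ n, s (n + 1) = f n (s n) := fun n => rfl
  have hmono : Monotone (fun n => (s n).1) := by
    refine monotone_nat_of_le_succ ?_
    intro n
    show (s n).1 ≤ (s (n + 1)).1
    rw [hs1]
    exact (hf n (s n)).1
  have hmem : ∀ g, g ∈ (⨆ n, (s n).1) ↔ ∃ n, g ∈ (s n).1 := by
    intro g
    exact AddSubgroup.mem_iSup_of_directed hmono.directed_le
  refine ⟨⨆ n, (s n).1, ?_, ?_⟩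
  · intro g hg hg0
    obtain ⟨n, hn⟩ := (hmem g).1 hg
    exact (s n).2.sep g hn hg0
  · intro x v ε hε
    obtain ⟨i, hi⟩ := hy2 x ε hε
    obtain ⟨j, hj⟩ := ht v ε hε
    have hle : (s (Nat.pair i j + 1)).1 ≤ ⨆ n, (s n).1 :=
      le_iSup (fun n => (s n).1) (Nat.pair i j + 1)
    rw [hs1] at hle
    obtain ⟨g, hg, hg'⟩ := (hf (Nat.pair i j) (s (Nat.pair i j))).2
    rw [Nat.unpair_pair] at hg'
    exact ⟨y i, t j, hi, hj, g, hle hg, hg'⟩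

/-- the map `ℓ₁ × Y → ℓ₁ ⊕₂ Y` -/
noncomputable def emb : L1 × Y →+ WithLp 2 (L1 × Y) where
  toFun g := WithLp.toLp 2 g
  map_zero' := rfl
  map_add' _ _ := rfl

theorem norm_emb_sq (g : L1 × Y) : ‖emb g‖ ^ 2 = ‖g.1‖ ^ 2 + ‖g.2‖ ^ 2 :=
  WithLp.prod_norm_sq_eq_of_L2 (emb g)

theorem norm_emb_le (g : L1 × Y) : ‖emb g‖ ≤ ‖g.1‖ + ‖g.2‖ := by
  have h := norm_emb_sq g
  refine abs_le_of_sq_le_sq' ?_ (by positivity) |>.2
  nlinarith [norm_nonneg g.1, norm_nonneg g.2]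

theorem upper_bound [NormedSpace ℝ Y] (hY : ∃ t : ℕ → Y, ∀ v : Y, ∀ ε : ℝ, 0 < ε → ∃ n, ‖v - t n‖ ≤ ε) :
    ∃ D : AddSubgroup (WithLp 2 (L1 × Y)), TwoSep (D : Set (WithLp 2 (L1 × Y))) ∧
      ∀ ε : ℝ, 0 < ε → RhoDense (D : Set (WithLp 2 (L1 × Y))) (rr + ε) := by
  obtain ⟨D, hsep, hnear⟩ := exists_limit hY
  refine ⟨D.map emb, ?_, ?_⟩
  · intro d hd d' hd' hne
    obtain ⟨g, hg, rfl⟩ := AddSubgroup.mem_map.1 hd
    obtain ⟨g', hg', rfl⟩ := AddSubgroup.mem_map.1 hd'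
    have h3 : g - g' ≠ 0 := by
      intro h
      exact hne (by rw [sub_eq_zero.1 h])
    have h4 := hsep (g - g') (D.sub_mem hg hg') h3
    rw [← norm_emb_sq, map_sub] at h4
    nlinarith [norm_nonneg (emb g - emb g')]
  · intro ε hε p
    obtain ⟨y, t, hy, ht, g, hg, hg'⟩ := hnear p.fst p.snd (ε / 2) (by positivity)
    refine ⟨emb g, AddSubgroup.mem_map_of_mem _ hg, ?_⟩
    have h3 : p - emb g = emb (p.fst - y, p.snd - t) + emb (y - g.1, t - g.2) := by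
      have h4 : emb (p.fst - y, p.snd - t) + emb (y - g.1, t - g.2)
        = WithLp.toLp 2 ((p.fst - y) + (y - g.1), (p.snd - t) + (t - g.2)) := rfl
      rw [h4, sub_add_sub_cancel, sub_add_sub_cancel]
      rfl
    rw [h3]
    refine (norm_add_le _ _).trans ?_
    have h5 : ‖emb (p.fst - y, p.snd - t)‖ ≤ ε := by
      refine (norm_emb_le _).trans ?_
      show ‖p.fst - y‖ + ‖p.snd - t‖ ≤ ε
      linarith
    have h6 : ‖emb (y - g.1, t - g.2)‖ ≤ rr := by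
      refine abs_le_of_sq_le_sq' ?_ rr_pos.le |>.2
      rw [norm_emb_sq]
      exact hg'
    linarith

end PCX98
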